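import Mathlib
import Pool.Agent.H171R3.FV.Real

set_option autoImplicit false

namespace Pool.Agent.Results.MP_1d3a05_mp.ReducibleReal

open H171FV

/-- Disproof of the irreducibility of Fermi varieties of real potentials in the plane: there are a
non-constant, real-valued, real-analytic, `ℤ²`-periodic potential `V` on the plane and a real energy
`lam` whose Fermi variety `F` (the same set for solutions of every class `C^r`, `2 ≤ r ≤ ω`) is
reducible modulo periodicity, both in `(ℂ*)²` and as a `ℤ²`-invariant analytic subset of `ℂ²`. -/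
theorem result : ∃ (V : ℝ → ℝ → ℝ) (lam : ℝ) (F : Set (ℂ × ℂ)),
    AnalyticOnNhd ℝ (fun p : ℝ × ℝ => V p.1 p.2) Set.univ ∧
    (∀ (m n : ℤ) (x y : ℝ), V (x + m) (y + n) = V x y) ∧
    (∃ x y x' y' : ℝ, V x y ≠ V x' y') ∧
    (∀ r : WithTop ℕ∞, 2 ≤ r → fermi r (fun x y => (V x y : ℂ)) lam = F) ∧
    Reducible torusC (quasi '' F) ∧ ReducibleInvariant F :=
  main_real

end Pool.Agent.Results.MP_1d3a05_mp.ReducibleReal
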